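import Pool.Agent.NA.Stmts

set_option autoImplicit false

open Finset

noncomputable section

namespace Pool.Agent.NA.H26

open Pool.Agent.BC

theorem blk_sub (k i l : ℕ) : blk k i l ⊆ range (2 ^ k) := by
  unfold blk
  dsimp only
  split
  · exact filter_subset _ _
  · exact filter_subset _ _

theorem blk_self (k i l : ℕ) (hl : l < 2 ^ k) : l ∈ blk k i l := by
  unfold blk
  dsimp only
  split
  · simp [hl]
  · simp [hl]

/-- membership determines the block -/
theorem blk_eq (k i l l' : ℕ) (hi : i ≤ 2 ^ k - 1) (h : l' ∈ blk k i l) :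
    blk k i l' = blk k i l := by
  have hk1 : 1 ≤ 2 ^ k := Nat.one_le_two_pow
  have hκ : Nat.log 2 (i + 1) ≤ k := by
    calc Nat.log 2 (i + 1) ≤ Nat.log 2 (2 ^ k) := Nat.log_mono_right (by omega)
      _ = k := Nat.log_pow (by norm_num) k
  unfold blk at h ⊢
  dsimp only at h ⊢
  set κ := Nat.log 2 (i + 1) with hκd
  by_cases h1 : l / 2 ^ (k - κ) < i + 1 - 2 ^ κ
  · rw [if_pos h1] at h
    rw [mem_filter] at h
    have hne : k - κ ≠ 0 := by
      intro h0
      have : κ = k := by omega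
      rw [this] at h1
      have h3 : i + 1 - 2 ^ k = 0 := by omega
      rw [h3] at h1
      exact absurd h1 (Nat.not_lt_zero _)
    have hp : 2 ^ (k - κ) = 2 ^ (k - κ - 1) * 2 := by
      rw [← pow_succ]
      congr 1
      omega
    have h2 : l' / 2 ^ (k - κ) = l / 2 ^ (k - κ) := by
      rw [hp, ← Nat.div_div_eq_div_mul, ← Nat.div_div_eq_div_mul, h.2]
    rw [if_pos h1, h2, if_pos h1, h.2]
  · rw [if_neg h1] at h
    rw [mem_filter] at h
    rw [if_neg h1, h.2, if_neg h1]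

theorem blk_symm (k i l l' : ℕ) (hi : i ≤ 2 ^ k - 1) (hl : l < 2 ^ k) (h : l' ∈ blk k i l) :
    l ∈ blk k i l' := by
  rw [blk_eq k i l l' hi h]
  exact blk_self k i l hl

theorem qv_adj {V : Type} [AddCommGroup V] [Module ℝ V] (k i : ℕ) (α : ℕ → ℝ) (φ : ℕ → V)
    (hi : i ≤ 2 ^ k - 1) :
    ∑ l ∈ range (2 ^ k), Qv k i α l • φ l = ∑ l ∈ range (2 ^ k), α l • Qv k i φ l := by
  have h1 : ∀ l ∈ range (2 ^ k), Qv k i α l • φ l =
      ∑ l' ∈ blk k i l, ((((blk k i l).card : ℝ))⁻¹ * α l') • φ l := by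
    intro l _
    rw [Qv, smul_eq_mul, mul_sum, sum_smul]
  have h2 : ∀ l ∈ range (2 ^ k), α l • Qv k i φ l =
      ∑ l' ∈ blk k i l, ((((blk k i l).card : ℝ))⁻¹ * α l) • φ l' := by
    intro l _
    rw [Qv, smul_smul, smul_sum, mul_comm]
  rw [sum_congr rfl h1, sum_congr rfl h2]
  rw [sum_comm' (t' := range (2 ^ k)) (s' := fun l' => blk k i l')]
  · apply sum_congr rfl
    intro l' hl'
    apply sum_congr rfl
    intro l hl
    rw [blk_eq k i l' l hi hl]
  · intro l l'
    constructor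
    · rintro ⟨hl, hl'⟩
      exact ⟨blk_symm k i l l' hi (mem_range.1 hl) hl', blk_sub k i l hl'⟩
    · rintro ⟨hl, hl'⟩
      exact ⟨blk_sub k i l' hl, blk_symm k i l' l hi (mem_range.1 hl') hl⟩

theorem qv_one (k i l : ℕ) (hl : l < 2 ^ k) : Qv k i (fun _ => (1 : ℝ)) l = 1 := by
  have hne : ((blk k i l).card : ℝ) ≠ 0 := by
    have : 0 < (blk k i l).card := card_pos.2 ⟨l, blk_self k i l hl⟩
    positivity
  rw [Qv]
  simp [hne]

theorem qaa : QaaStmt := by
  refine ⟨?_, ?_, ?_⟩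
  · intro V _ _ k i α φ hi
    exact qv_adj k i α φ hi
  · intro k i α hi
    have hone : ∀ β : ℕ → ℝ, ∑ l ∈ range (2 ^ k), Qv k i β l = ∑ l ∈ range (2 ^ k), β l := by
      intro β
      have h := qv_adj k i β (fun _ => (1 : ℝ)) hi
      have e1 : ∑ l ∈ range (2 ^ k), Qv k i β l • (1 : ℝ) = ∑ l ∈ range (2 ^ k), Qv k i β l := by
        apply sum_congr rfl
        intro l _
        simp
      have e2 : ∑ l ∈ range (2 ^ k), β l • Qv k i (fun _ => (1 : ℝ)) l =
          ∑ l ∈ range (2 ^ k), β l := by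
        apply sum_congr rfl
        intro l hl
        rw [qv_one k i l (mem_range.1 hl)]
        simp
      rw [← e1, ← e2]
      exact h
    refine ⟨?_, hone α⟩
    calc ∑ l ∈ range (2 ^ k), |Qv k i α l|
        ≤ ∑ l ∈ range (2 ^ k), Qv k i (fun l' => |α l'|) l := by
          apply sum_le_sum
          intro l _
          rw [Qv, Qv, smul_eq_mul, smul_eq_mul, abs_mul, abs_of_nonneg (by positivity)]
          exact mul_le_mul_of_nonneg_left (abs_sum_le_sum_abs _ _) (by positivity)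
      _ = ∑ l ∈ range (2 ^ k), |α l| := hone _
  · intro V _ _ k i φ B hi hB l hl
    have hpos : 0 < (blk k i l).card := card_pos.2 ⟨l, blk_self k i l hl⟩
    have hpos' : (0 : ℝ) < ((blk k i l).card : ℝ) := by exact_mod_cast hpos
    rw [Qv, norm_smul, norm_inv, Real.norm_of_nonneg hpos'.le]
    rw [inv_mul_le_iff₀ hpos']
    calc ‖∑ l' ∈ blk k i l, φ l'‖ ≤ ∑ l' ∈ blk k i l, ‖φ l'‖ := norm_sum_le _ _
      _ ≤ ∑ l' ∈ blk k i l, B :=
        sum_le_sum (fun l' hl' => hB l' (mem_range.1 (blk_sub k i l hl')))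
      _ = ((blk k i l).card : ℝ) * B := by rw [sum_const, nsmul_eq_mul]

end Pool.Agent.NA.H26
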